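import Mathlib

/-!
# Theorem DR, part H (author helper9): primes modulo which a squarefree number is not a square
-/

set_option autoImplicit false

namespace Pool.Agent.DR.H3

open NumberTheorySymbols

private theorem nres_crt {a b : ℕ} (h : a.Coprime b) (ha : 0 < a) (hb : 0 < b) {x y : ℕ}
    (hx : x.Coprime a) (hy : y.Coprime b) (B : ℕ) :
    ∃ l : ℕ, l.Prime ∧ B < l ∧ l % a = x % a ∧ l % b = y % b := by
  obtain ⟨r, hr1, hr2⟩ := Nat.chineseRemainder h x y
  have h1 : r.Coprime (a * b) := by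
    refine Nat.Coprime.mul_right ?_ ?_
    · rw [Nat.Coprime, Nat.ModEq.gcd_eq hr1]
      exact hx
    · rw [Nat.Coprime, Nat.ModEq.gcd_eq hr2]
      exact hy
  obtain ⟨l, hl1, hl2, hl3⟩ := Nat.forall_exists_prime_gt_and_modEq B (q := a * b) (a := r)
    (Nat.mul_pos ha hb).ne' h1
  refine ⟨l, hl2, hl1, ?_, ?_⟩
  · exact (hl3.of_mul_right b).trans hr1
  · exact (hl3.of_mul_left a).trans hr2

/-- A large prime `l` for which the squarefree number `n ≥ 2` is not a square modulo `l`. -/
theorem exists_nonres {n : ℕ} (hn : Squarefree n) (h2 : 2 ≤ n) (B : ℕ) :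
    ∃ l : ℕ, l.Prime ∧ B < l ∧ ¬ IsSquare (n : ZMod l) := by
  by_cases he : 2 ∣ n
  · obtain ⟨m, rfl⟩ := he
    have hm : (2 : ℕ).Coprime m := Nat.coprime_of_squarefree_mul hn
    have hm0 : 0 < m := by omega
    have hmo : Odd m := Nat.coprime_two_left.1 hm
    obtain ⟨l, hl, hB, h8, h1⟩ := nres_crt (a := 8) (b := m) (x := 5) (y := 1)
      (Nat.Coprime.pow_left 3 hm) (by norm_num) hm0 (by norm_num) (Nat.coprime_one_left m) B
    refine ⟨l, hl, hB, ?_⟩
    have hlo : Odd l := by
      rw [Nat.odd_iff]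
      omega
    have hJ : J((2 * m : ℕ) | l) = -1 := by
      have e1 : J(2 | l) = -1 := by
        rw [jacobiSym.at_two hlo, ZMod.χ₈_nat_eq_if_mod_eight]
        have h3 : l % 8 = 5 := by omega
        have h4 : l % 2 = 1 := by omega
        simp [h3, h4]
      have e2 : J((m : ℕ) | l) = 1 := by
        rw [jacobiSym.quadratic_reciprocity_one_mod_four' hmo (by omega)]
        rw [jacobiSym.mod_left' (a₂ := 1) (by exact_mod_cast h1), jacobiSym.one_left]
      push_cast
      rw [jacobiSym.mul_left, e1, e2]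
      norm_num
    have := ZMod.nonsquare_of_jacobiSym_eq_neg_one hJ
    exact_mod_cast this
  · obtain ⟨p, hp, m, rfl⟩ : ∃ p : ℕ, p.Prime ∧ ∃ m : ℕ, n = p * m := by
      obtain ⟨p, hp, h⟩ := Nat.exists_prime_and_dvd (show n ≠ 1 by omega)
      exact ⟨p, hp, h⟩
    have hpm : p.Coprime m := Nat.coprime_of_squarefree_mul hn
    have hno : Odd (p * m) := Nat.not_even_iff_odd.1 fun h => he h.two_dvd
    obtain ⟨hpo, hmo⟩ := Nat.odd_mul.1 hno
    have : Fact p.Prime := ⟨hp⟩
    obtain ⟨u, hu⟩ := FiniteField.exists_nonsquare (F := ZMod p) (by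
      rw [ZMod.ringChar_zmod_n]
      rintro rfl
      exact absurd hpo (by decide))
    have hu0 : u ≠ 0 := by
      rintro rfl
      exact hu (IsSquare.zero)
    have hm0 : 0 < m := hmo.pos
    obtain ⟨l, hl, hB, h4, h1⟩ := nres_crt (a := 4 * m) (b := p) (x := 1) (y := u.val)
      (Nat.Coprime.mul_left (Nat.Coprime.pow_left 2 (Nat.coprime_two_left.2 hpo)) hpm.symm)
      (by omega) hp.pos (Nat.coprime_one_left _)
      (by
        rw [Nat.coprime_comm, Nat.Prime.coprime_iff_not_dvd hp]
        intro h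
        have h5 := u.val_lt
        have h6 := Nat.eq_zero_of_dvd_of_lt h h5
        rw [ZMod.val_eq_zero] at h6
        exact hu0 h6) B
    have hl4 : l % 4 = 1 := by
      have h5 : l % (4 * m) % 4 = 1 % (4 * m) % 4 := by rw [h4]
      rw [Nat.mod_mul_right_mod, Nat.mod_mul_right_mod] at h5
      simpa using h5
    have hlm : l % m = 1 % m := by
      have h5 : l % (4 * m) % m = 1 % (4 * m) % m := by rw [h4]
      rwa [Nat.mod_mul_left_mod, Nat.mod_mul_left_mod] at h5
    have hlo : Odd l := by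
      rw [Nat.odd_iff]
      omega
    refine ⟨l, hl, hB, ?_⟩
    have hJ : J((p * m : ℕ) | l) = -1 := by
      have e1 : J((p : ℕ) | l) = -1 := by
        rw [jacobiSym.quadratic_reciprocity_one_mod_four' hpo hl4]
        rw [← jacobiSym.legendreSym.to_jacobiSym, legendreSym.eq_neg_one_iff]
        have h5 : ((l : ℤ) : ZMod p) = u := by
          have h6 : ((l : ℕ) : ZMod p) = ((u.val : ℕ) : ZMod p) :=
            (ZMod.natCast_eq_natCast_iff' _ _ _).2 h1
          rw [ZMod.natCast_zmod_val] at h6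
          exact_mod_cast h6
        rw [h5]
        exact hu
      have e2 : J((m : ℕ) | l) = 1 := by
        rw [jacobiSym.quadratic_reciprocity_one_mod_four' hmo hl4]
        rw [jacobiSym.mod_left' (a₂ := 1) (by exact_mod_cast hlm), jacobiSym.one_left]
      push_cast
      rw [jacobiSym.mul_left, e1, e2]
      norm_num
    have := ZMod.nonsquare_of_jacobiSym_eq_neg_one hJ
    exact_mod_cast this

end Pool.Agent.DR.H3
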