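import Pool.Agent.Lib.DR.H3.Asm
import Pool.Agent.Lib.DS.H3.All

/-!
# Theorem DR, part H: `S_H` (author helper9)

From the inputs `DS.H3.HIn` (statements for `[SqN n t]`) and `DR.S_E9`.
-/

set_option autoImplicit false

namespace Pool.Agent.DR.H3

open Pool.Agent.DN

/-- **Part H (Theorem H) of Theorem DR.** -/
theorem aH (I : DS.H3.HIn) (h9 : S_E9) : S_H := tAsm (DS.H3.aKK I) I.g3 I.gm h9 I.e1 I.e6

end Pool.Agent.DR.H3
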