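import Pool.Agent.Lib.DR.E.AllZ
import Pool.Agent.Lib.DR.H3.All
import Pool.Agent.Lib.DS.H3.AllZ

/-!
# Theorem DR (`2` ramified), part H: `S_H`, no hypotheses (author helper9)
-/

set_option autoImplicit false

namespace Pool.Agent.DR.H3

open Pool.Agent.DN

/-- **Part H (Theorem H) of Theorem DR.** -/
theorem zH : S_H := aH DS.H3.zHIn dE9

end Pool.Agent.DR.H3
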