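import Pool.Agent.Lib.DR.IfaceH
import Pool.Agent.Lib.DR.H3.TH
import Pool.Agent.Lib.DS.H3.Pri
import Pool.Agent.Lib.DS.H3.HN
import Pool.Agent.Lib.DN.O.All

set_option autoImplicit false

/-!
# Theorem DR, part H, module `Asm`: the assembly of Theorem H (author helper9)

`S_H` of `DR/IfaceH.lean` from the abstract form `DI.th`, `th_i`, the element `x` (`DS.H3.S_KK`) and the statements of parts E and G. If `k % 8 ≠ 6` all elements of
`Gal(Om/L'_N)` fix `i`; if `k % 8 = 6` there is an element of an inertia group at `2` which fixes `L'_N` and moves `i`.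
-/

open scoped Pointwise nonZeroDivisors

noncomputable section

namespace Pool.Agent.DR.H3

open Pool.Agent.MuZ Pool.Agent.FW NumberField IsDedekindDomain
open Pool.Agent.DI (io ofC io_inj exists_io io_ofC ofC_io VP MP UP TP ex sqr sqr_sq kap)
open Pool.Agent.DI.H3 (Sqs Nsq S_KAP S_hLeg S_hPrm)
open Pool.Agent.DN
open Pool.Agent.DS (IsRep)
open Pool.Agent.DS.H3 (S_KK)

namespace AsmAux

/-- A field which contains `w` is totally complex. -/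
theorem tc_of_wO (k o : ℕ) [Rmf k o] (F : IntermediateField ℚ Om) [NumberField F] (h : wO k o ∈ F) :
    IsTotallyComplex F := by
  refine ⟨fun v => ?_⟩
  rw [← InfinitePlace.not_isReal_iff_isComplex]
  intro hv
  have h1 : ComplexEmbedding.IsReal v.embedding := InfinitePlace.isReal_iff.1 hv
  have h2 := h1.coe_embedding_apply (⟨wO k o, h⟩ : F)
  set t : ℝ := h1.embedding (⟨wO k o, h⟩ : F) with ht
  have h3 : (⟨wO k o, h⟩ : F) ^ 2 = (o : F) * (⟨wO k o, h⟩ : F) - (k : F) := by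
    apply Subtype.ext
    have e := wO_sq (n := k) (t := o)
    push_cast
    exact e
  have h4 : t ^ 2 = o * t - k := by
    rw [ht, ← map_pow, h3, map_sub, map_mul, map_natCast, map_natCast]
  have h5 : (3 : ℝ) ≤ 4 * k - (o : ℝ) ^ 2 := by exact_mod_cast hD3 (n := k) (t := o)
  nlinarith [sq_nonneg (t - o / 2)]

theorem sq_mem {k o : ℕ} [hR : Rmf k o] : k % 4 = 1 ∨ k % 4 = 2 := by
  have h0 : o = 0 := hR.zero
  rcases hR.out with ⟨h, -⟩ | ⟨-, h1, h2, h3⟩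
  · omega
  · have h4 : k % 4 ≠ 0 := by
      intro h
      have h5 : 2 * 2 ∣ k := by omega
      have := h2 2 h5
      rw [Nat.isUnit_iff] at this
      omega
    omega

/-- The square of `wO`. -/
theorem wO_sq' {k o : ℕ} [hR : Rmf k o] : wO k o ^ 2 = -(k : Om) := by
  have h0 : o = 0 := hR.zero
  rw [wO_sq, h0]
  push_cast
  ring

/-- `k % 8 ≠ 6`: `Gal(Om/L'_N)` fixes `i`. -/
theorem fix_i (hE1 : DS.S_E1) (hE6 : DS.S_E6) (hGM : DS.S_GM) (k o : ℕ) [hR : Rmf k o]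
    (hk : k % 8 ≠ 6) {f N : ℕ} (hf : Odd f) (h3 : 15 ∣ f) (hN : 3 ≤ N) {i : Om} (hi : i ^ 2 = -1) :
    ∀ τ ∈ (Mn k o f N).fixingSubgroup, τ i = i := by
  intro τ hτ
  obtain ⟨-, -, -, hKM, hfinM, -, hfix, -⟩ := hGM k o f hf h3
  obtain ⟨-, hMM, -⟩ := hfinM N (by omega)
  have hτ' : ∀ x ∈ Mn k o f N, τ x = x := (IntermediateField.mem_fixingSubgroup_iff _ _).1 hτ
  have hK : τ ∈ GK k o := by
    rw [mem_GK_iff]
    exact hτ' _ (hMM (hKM (IntermediateField.mem_adjoin_simple_self ℚ (wO k o))))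
  have hM0 : 0 < f * 2 ^ N := Nat.mul_pos hf.pos (pow_pos two_pos _)
  have h15 : 15 ∣ f * 2 ^ N := h3.mul_right _
  obtain ⟨c, hc⟩ := (hE1 k o _ hM0 h15).1 τ hK
  have hcH := (hfix N (by omega) τ hK c hc).1 hτ'
  obtain ⟨γ, rfl, hγ⟩ := (DS.H3.tPri DS.H3.tHN k o f N hf h3 (by omega) c).1 hcH
  have hi4 : i ^ 4 = 1 := by
    have : i ^ 4 = (i ^ 2) ^ 2 := by ring
    rw [this, hi]
    norm_num
  have h8 : (8 : ℤ) ∣ 2 ^ N := by
    obtain ⟨j, rfl⟩ := Nat.exists_eq_add_of_le hN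
    exact ⟨2 ^ j, by rw [pow_add]; norm_num⟩
  have hiM : i ^ (f * 2 ^ N) = 1 := by
    obtain ⟨j, rfl⟩ := Nat.exists_eq_add_of_le hN
    have e : f * 2 ^ (3 + j) = 4 * (f * 2 * 2 ^ j) := by rw [pow_add]; ring
    rw [e, pow_mul, hi4, one_pow]
  have h10 := hE6 k o τ _ _ hK hM0 h15 hc i hiM
  -- the norm is `1` modulo `4`
  have hNm : (4 : ℤ) ∣ Nm γ - 1 := by
    have ho : o = 0 := hR.zero
    subst ho
    obtain ⟨x, y⟩ := γ
    have hNa : Nm (⟨x, y⟩ : OO k 0) = x ^ 2 + k * y ^ 2 := by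
      unfold Nm
      push_cast
      ring
    have hodd : ¬ (2 : ℤ) ∣ Nm (⟨x, y⟩ : OO k 0) := by
      intro h6
      have h7 : IsCoprime (Nm (⟨x, y⟩ : OO k 0)) (2 : ℤ) := by
        have := cop_dvd hγ.1.1 (Dvd.intro _ rfl : 2 ∣ 2 * f)
        exact_mod_cast this
      have h8 := IsCoprime.isUnit_of_dvd' h7 h6 dvd_rfl
      rw [Int.isUnit_iff] at h8
      omega
    have hpm : (8 : ℤ) ∣ Nm (⟨x, y⟩ : OO k 0) - 1 ∨ (8 : ℤ) ∣ Nm (⟨x, y⟩ : OO k 0) + 1 := by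
      rcases hγ.2 with h | h
      · exact Or.inl (h8.trans h)
      · exact Or.inr (h8.trans h)
    rw [hNa] at hodd hpm ⊢
    rcases sq_mem (k := k) (o := 0) with hk4 | hk4
    · obtain ⟨c, hc⟩ : ∃ c : ℕ, k = 4 * c + 1 := ⟨k / 4, by omega⟩
      have e : x ^ 2 + (k : ℤ) * y ^ 2 = x ^ 2 + y ^ 2 + 4 * (c * y ^ 2) := by
        rw [hc]
        push_cast
        ring
      rw [e] at hodd ⊢
      rcases Int.even_or_odd' x with ⟨u, rfl | rfl⟩ <;> rcases Int.even_or_odd' y with ⟨v, rfl | rfl⟩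
      · exact absurd ⟨2 * u ^ 2 + 2 * v ^ 2 + 2 * (c * (2 * v) ^ 2), by ring⟩ hodd
      · exact ⟨u ^ 2 + v ^ 2 + v + c * (2 * v + 1) ^ 2, by ring⟩
      · exact ⟨u ^ 2 + u + v ^ 2 + c * (2 * v) ^ 2, by ring⟩
      · exact absurd ⟨2 * u ^ 2 + 2 * u + 2 * v ^ 2 + 2 * v + 1 + 2 * (c * (2 * v + 1) ^ 2), by ring⟩
          hodd
    · obtain ⟨c, hc⟩ : ∃ c : ℕ, k = 8 * c + 2 := ⟨k / 8, by omega⟩
      have e : x ^ 2 + (k : ℤ) * y ^ 2 = x ^ 2 + 2 * y ^ 2 + 8 * (c * y ^ 2) := by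
        rw [hc]
        push_cast
        ring
      rw [e] at hodd hpm ⊢
      rcases Int.even_or_odd' x with ⟨u, rfl | rfl⟩
      · exact absurd ⟨2 * u ^ 2 + y ^ 2 + 4 * (c * y ^ 2), by ring⟩ hodd
      · rcases Int.even_or_odd' y with ⟨v, rfl | rfl⟩
        · exact ⟨u ^ 2 + u + 2 * v ^ 2 + 2 * (c * (2 * v) ^ 2), by ring⟩
        · exfalso
          obtain ⟨u', hu'⟩ : ∃ u', u * (u + 1) = 2 * u' := by
            obtain ⟨z, hz⟩ := Int.even_mul_succ_self u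
            exact ⟨z, by rw [hz]; ring⟩
          have e2 : (2 * u + 1) ^ 2 + 2 * (2 * v + 1) ^ 2 + 8 * ((c : ℤ) * (2 * v + 1) ^ 2) =
              8 * (u' + v ^ 2 + v + c * (2 * v + 1) ^ 2) + 3 := by linear_combination 4 * hu'
          rw [e2] at hpm
          omega
  have hO2 := (aO2 k o).2.2.2.1 γ
  have h11 : (4 : ℤ) ∣ (NI (sp γ) : ℤ) - 1 := by rwa [hO2]
  have h12 : i ^ NI (sp γ) = i := by
    have h13 : 1 ≤ NI (sp γ) := by
      by_contra h14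
      have h15 : NI (sp γ) = 0 := by omega
      rw [h15] at h11
      omega
    obtain ⟨j, hj⟩ : ∃ j : ℕ, NI (sp γ) = 1 + 4 * j := ⟨(NI (sp γ) - 1) / 4, by omega⟩
    rw [hj, pow_add, pow_one, pow_mul, hi4, one_pow, mul_one]
  rw [h10, h12]

/-- `k % 8 = 6`: an element of the inertia group at `2` which fixes `L'_n` and maps `i` to `-i`. -/
theorem rho_i (hGM : DS.S_GM) (hE9 : S_E9) (k o : ℕ) [hR : Rmf k o] (hk : k % 8 = 6) {f N : ℕ}
    (hf : Odd f) (h3 : 15 ∣ f) (hN : 3 ≤ N) {P : Ideal ZZ} (hP : Npr P) (h2 : MP P 2) :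
    ∃ ρ ∈ P.inertia Gal(Om/ℚ), ρ ∈ (Mn k o f N).fixingSubgroup ∧ ∀ i : Om, i ^ 2 = -1 → ρ i ≠ i := by
  have hPp : P.IsPrime := hP.1
  have h1lt : 1 < 2 ^ N := Nat.one_lt_two_pow (by omega)
  have hcop : (2 ^ N - 1).Coprime (2 ^ N) := by
    have h3 := Nat.coprime_self_sub_left (n := 2 ^ N) (m := 1) h1lt.le
    rw [h3]
    exact Nat.coprime_one_left _
  obtain ⟨ρ, hρ, hρz⟩ := DI.in_cyc 2 Nat.prime_two P hP.1
    (by simpa using (DI.two_mem_iff hP.1).1 h2) N (2 ^ N - 1) hcop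
  have hne : NeZero (2 ^ N) := ⟨by positivity⟩
  obtain ⟨ζ, hζ⟩ := HasEnoughRootsOfUnity.exists_primitiveRoot Om (2 ^ N)
  have hinv : ∀ x : Om, x ^ 2 ^ N = 1 → ρ x * x = 1 := by
    intro x hx
    rw [hρz x hx, ← pow_succ, Nat.sub_add_cancel h1lt.le, hx]
  have hρζ : ρ ζ = ζ⁻¹ := eq_inv_of_mul_eq_one_left (hinv ζ hζ.pow_eq_one)
  -- a square root of `2`
  obtain ⟨j, hj⟩ := Nat.exists_eq_add_of_le hN
  obtain ⟨y, hy⟩ : ∃ y : Om, y = ζ ^ 2 ^ j := ⟨_, rfl⟩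
  have hy8 : y ^ 8 = 1 := by
    rw [hy, ← pow_mul, show 2 ^ j * 8 = 2 ^ N by rw [hj, pow_add]; ring, hζ.pow_eq_one]
  have hy4 : y ^ 4 ≠ 1 := by
    intro h
    rw [hy, ← pow_mul, hζ.pow_eq_one_iff_dvd] at h
    have h5 := Nat.le_of_dvd (by positivity) h
    rw [hj, pow_add] at h5
    have h6 : 0 < 2 ^ j := by positivity
    nlinarith
  have hy4' : y ^ 4 = -1 := by
    have h5 : (y ^ 4) ^ 2 = 1 ^ 2 := by rw [← pow_mul, hy8, one_pow]
    exact (sq_eq_sq_iff_eq_or_eq_neg.1 h5).resolve_left hy4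
  have hy0 : y ≠ 0 := by
    rintro h
    rw [h, zero_pow (by norm_num)] at hy8
    exact zero_ne_one hy8
  have hyN : y ^ 2 ^ N = 1 := by
    rw [hj, pow_add, show (2 : ℕ) ^ 3 = 8 by norm_num, pow_mul, hy8, one_pow]
  have hρy : ρ y = y⁻¹ := eq_inv_of_mul_eq_one_left (hinv y hyN)
  obtain ⟨s, hs⟩ : ∃ s : Om, s = y + y⁻¹ := ⟨_, rfl⟩
  have hs2 : s ^ 2 = 2 := by
    have e : y ^ 2 * s ^ 2 = y ^ 2 * 2 := by
      rw [hs]
      have : y ^ 2 * (y + y⁻¹) ^ 2 = (y ^ 2 + y * y⁻¹) ^ 2 := by ring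
      rw [this, mul_inv_cancel₀ hy0]
      linear_combination hy4'
    exact mul_left_cancel₀ (pow_ne_zero 2 hy0) e
  have hρs : ρ s = s := by
    rw [hs, map_add, map_inv₀, hρy, inv_inv, add_comm]
  have hs0 : s ≠ 0 := by
    rintro h
    rw [h, zero_pow (by norm_num)] at hs2
    exact two_ne_zero hs2.symm
  -- the square root of `-m`, `k = 2 m`
  obtain ⟨c, hc⟩ : ∃ c : ℕ, k = 2 * (4 * c + 3) := ⟨k / 8, by omega⟩
  obtain ⟨r, hr⟩ : ∃ r : Om, r = wO k o / s := ⟨_, rfl⟩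
  have hr2 : r ^ 2 = -(4 * c + 3 : Om) := by
    rw [hr, div_pow, wO_sq', hs2, hc]
    push_cast
    ring
  have hρr2 : ρ r = r ∨ ρ r = -r := by
    apply sq_eq_sq_iff_eq_or_eq_neg.1
    rw [← map_pow, hr2, map_neg, map_add, map_mul, map_natCast]
    congr 1
    have e4 : ρ (4 : Om) = 4 := map_ofNat ρ 4
    have e3 : ρ (3 : Om) = 3 := map_ofNat ρ 3
    rw [e4, e3]
  have hρr : ρ r = r := by
    rcases hρr2 with h | h
    · exact h
    exfalso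
    obtain ⟨om, hom⟩ : ∃ om : Om, om = (1 + r) / 2 := ⟨_, rfl⟩
    have hom2 : om ^ 2 - om + (c + 1) = 0 := by
      rw [hom]
      have : ((1 + r) / 2) ^ 2 - (1 + r) / 2 + ((c : Om) + 1) = (r ^ 2 + (4 * c + 3)) / 4 := by ring
      rw [this, hr2]
      ring
    have hint : IsIntegral ℤ om := by
      refine ⟨Polynomial.X ^ 2 - Polynomial.X + Polynomial.C ((c : ℤ) + 1), ?_, ?_⟩
      · monicity!
      · simp only [Polynomial.eval₂_add, Polynomial.eval₂_sub, Polynomial.eval₂_pow,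
          Polynomial.eval₂_X, Polynomial.eval₂_C]
        simpa using hom2
    have hV : VP P om := DI.VP.integral hint
    have hM := DI.VP.inertia hρ hV
    have e1 : ρ om - om = -r := by
      rw [hom, map_div₀, map_add, map_one, h]
      have e2 : ρ (2 : Om) = 2 := map_ofNat ρ 2
      rw [e2]
      ring
    rw [e1] at hM
    have hM1 : MP P r := by
      have := hM.neg
      rwa [neg_neg] at this
    have hVr : VP P r := DI.MP.vp hM1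
    have hM2 : MP P (r ^ 2) := by
      rw [sq]
      exact DI.MP.mul_right hM1 hVr
    rw [hr2] at hM2
    have hM3 : MP P (((4 * c + 3 : ℕ) : Om)) := by
      have := hM2.neg
      rw [neg_neg] at this
      exact_mod_cast this
    have h4 : ((4 * c + 3 : ℕ) : ZZ) ∈ P := (DI.MP.nat_iff _).1 hM3
    have h5 : (2 : ZZ) ∈ P := (DI.two_mem_iff hP.1).1 h2
    apply hPp.one_notMem
    have e3 : (1 : ZZ) = ((4 * c + 3 : ℕ) : ZZ) - 2 * ((2 * c + 1 : ℕ) : ZZ) := by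
      push_cast
      ring
    rw [e3]
    exact P.sub_mem h4 (P.mul_mem_right _ h5)
  have hρK : ρ ∈ GK k o := by
    rw [mem_GK_iff]
    have e : wO k o = r * s := by rw [hr, div_mul_cancel₀ _ hs0]
    rw [e, map_mul, hρr, hρs]
  have hMf : ∀ x ∈ Mf k o f, ρ x = x := (hE9 k o f hf h3).2.2.2.2.1 P ⟨hP, h2⟩ ρ hρ hρK
  have hfix : ∀ x ∈ Mn k o f N, ρ x = x :=
    ((hGM k o f hf h3).2.2.2.2.2.2.2 N ζ (by omega) hζ ρ).2 ⟨hMf, Or.inr hρζ⟩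
  refine ⟨ρ, hρ, (IntermediateField.mem_fixingSubgroup_iff _ _).2 hfix, fun i hi hρi => ?_⟩
  have h4 : i ^ 4 = 1 := by
    have : i ^ 4 = (i ^ 2) ^ 2 := by ring
    rw [this, hi]
    norm_num
  have h5 : i ^ 2 ^ N = 1 := by
    obtain ⟨m, rfl⟩ : ∃ m, N = m + 2 := ⟨N - 2, by omega⟩
    rw [pow_add, mul_comm, pow_mul, show (2 : ℕ) ^ 2 = 4 by norm_num, h4, one_pow]
  have h6 : ρ i * i = 1 := hinv i h5
  rw [hρi] at h6
  have h7' : (-1 : Om) = 1 := by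
    rw [← hi, sq]
    exact h6
  norm_num at h7'

/-- The element `x` of `S_KK` is an element `k` of the abstract form. -/
theorem thn_of_kk (k o : ℕ) [Rmf k o] {f N : ℕ} {m : Ideal (OO k o)} {T : Finset (OO k o)}
    {b : Ideal (OO k o)} [NumberField (Mn k o f N)] {B : ℕ}
    (hKK : ∀ l : ℕ, l.Prime → l % 4 = 1 → l.Coprime B →
      ∀ Q : Ideal ZZ, Npr Q → (l : ZZ) ∈ Q →
      Nat.card (𝓞 (Mn k o f N) ⧸ Q.comap (iO (Mn k o f N))) = l →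
      ∀ φ : Gal(Om/ℚ), IsFr (Mn k o f N) Q φ →
      ∃ x : Mn k o f N, x ≠ 0 ∧
        (∀ (q' : HeightOneSpectrum (𝓞 (Mn k o f N))) (Q' : Ideal ZZ), Ab (Mn k o f N) Q' q' →
          ¬ MP Q' 2 →
          ¬ (∃ s ∈ GK k o, Q'.comap (iO (Mn k o f N)) = (s • Q).comap (iO (Mn k o f N))) →
          (2 : ℤ) ∣ vl (Mn k o f N) q' x) ∧
        ∀ s ∈ GK k o, ∀ q' : HeightOneSpectrum (𝓞 (Mn k o f N)),
          q'.asIdeal = (s • Q).comap (iO (Mn k o f N)) →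
          ((vl (Mn k o f N) q' x : ℤ) : ZMod 2) = kap (s⁻¹ (uN f N m T b)) φ)
    (hnorm : ∀ τ : Gal(Om/ℚ), ∀ x ∈ Mn k o f N, τ x ∈ Mn k o f N)
    {Sg : Finset Gal(Om/ℚ)} (hSgK : ∀ s ∈ Sg, s ∈ GK k o)
    (hSgex : ∀ τ ∈ GK k o, ∃ s ∈ Sg, s⁻¹ * τ ∈ (Mn k o f N).fixingSubgroup) :
    DI.Thn (Mn k o f N) Sg (uN f N m T b) (2 * B) := by
  intro Q φ hQp hQ0 hMQ hprime h4 hφ
  have hlQ : ((Nat.card (𝓞 (Mn k o f N) ⧸ Q.comap (iO (Mn k o f N))) : ℕ) : ZZ) ∈ Q := by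
    have h1 : ((Nat.card (𝓞 (Mn k o f N) ⧸ Q.comap (iO (Mn k o f N))) : ℕ) : 𝓞 (Mn k o f N)) ∈
        Q.comap (iO (Mn k o f N)) := by
      rw [← Ideal.Quotient.eq_zero_iff_mem, map_natCast, ← nsmul_one]
      exact card_nsmul_eq_zero'
    rw [Ideal.mem_comap, map_natCast] at h1
    exact h1
  have hco : (Nat.card (𝓞 (Mn k o f N) ⧸ Q.comap (iO (Mn k o f N)))).Coprime B := by
    rw [hprime.coprime_iff_not_dvd]
    rintro ⟨j, hj⟩
    apply hMQ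
    rw [hj]
    push_cast
    rw [mul_left_comm]
    exact Q.mul_mem_right _ hlQ
  obtain ⟨x, hx0, hxev, hxod⟩ := hKK _ hprime h4 hco Q ⟨hQp, hQ0⟩ hlQ rfl φ hφ
  refine ⟨x, hx0, fun v' Q' hQ' h2' hdis => ?_, fun v' s hs hsv => hxod s (hSgK s hs) v' hsv.2.2⟩
  rw [even_iff_two_dvd]
  refine hxev v' Q' hQ' (fun h3 => h2' ((DI.two_mem_iff hQ'.1).1 h3)) ?_
  rintro ⟨s, hs, hsQ⟩
  obtain ⟨σ, hσ, hρ⟩ := hSgex s hs
  refine hdis σ hσ ⟨hQp.smul σ, (DI.npr_smul ⟨hQp, hQ0⟩ σ).2, ?_⟩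
  rw [hQ'.2.2, hsQ]
  ext x
  rw [Ideal.mem_comap, Ideal.mem_comap, Ideal.mem_pointwise_smul_iff_inv_smul_mem,
    Ideal.mem_pointwise_smul_iff_inv_smul_mem]
  have h5 : s⁻¹ • iO (Mn k o f N) x = σ⁻¹ • iO (Mn k o f N) x := by
    apply Subtype.ext
    change s⁻¹ ((x : Mn k o f N) : Om) = σ⁻¹ ((x : Mn k o f N) : Om)
    have h6 : σ⁻¹ ((x : Mn k o f N) : Om) ∈ Mn k o f N := hnorm σ⁻¹ _ (x : Mn k o f N).2
    have h7 : (σ⁻¹ * s) (σ⁻¹ ((x : Mn k o f N) : Om)) = σ⁻¹ ((x : Mn k o f N) : Om) := hρ ⟨_, h6⟩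
    have h8 : s⁻¹ = (σ⁻¹ * s)⁻¹ * σ⁻¹ := by group
    rw [h8, AlgEquiv.mul_apply]
    conv_lhs => rw [← h7]
    rw [← AlgEquiv.mul_apply, inv_mul_cancel]
    rfl
  rw [h5]

end AsmAux

open AsmAux in
/-- **The assembly of Theorem H.** -/
theorem tAsm (h1 : S_KK) (h2 : DS.S_G3) (h3 : DS.S_GM) (h4 : S_E9) (h5 : DS.S_E1) (h6 : DS.S_E6) :
    S_H := by
  intro k o _ f m N T hf h3f hm0 hm2 hmf hN hT b hb0 hb g hg P d hP hP2 hdP hdF hdi Sg hSgK hSgex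
    hSguni τ hτ
  obtain ⟨-, -, -, hKM, hfinM, -⟩ := h3 k o f hf h3f
  obtain ⟨hfin, hMM, -⟩ := hfinM N (by omega)
  have hnf : NumberField (Mn k o f N) := NumberField.mk
  have hwL : wO k o ∈ Mn k o f N :=
    hMM (hKM (IntermediateField.mem_adjoin_simple_self ℚ (wO k o)))
  have htc : IsTotallyComplex (Mn k o f N) := tc_of_wO k o _ hwL
  obtain ⟨-, hnorm', -⟩ := h4 k o f hf h3f
  have hnorm : ∀ τ : Gal(Om/ℚ), ∀ x ∈ Mn k o f N, τ x ∈ Mn k o f N :=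
    fun τ => hnorm' N τ (by omega)
  obtain ⟨huF, hu0, -⟩ := h2 k o f m N T hf h3f hm0 hm2 hmf hN hT b hb0 hb
  have hi : sqr (-1) ^ 2 = -1 := sqr_sq (-1)
  obtain ⟨B, hB, hKK⟩ := h1 k o f N m T b hf h3f hN hm0 hm2 hmf hT hb0 hb
  have huni : ∀ σ ∈ Sg, ∀ τ ∈ Sg, (∀ x ∈ Mn k o f N, σ x = τ x) → σ = τ := by
    intro σ hσ τ' hτ' h3
    refine hSguni σ hσ τ' hτ' ?_
    rintro ⟨x, hx⟩
    change (σ⁻¹ * τ') x = x
    rw [AlgEquiv.mul_apply, ← h3 x hx, ← AlgEquiv.mul_apply, inv_mul_cancel]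
    rfl
  by_cases hk : k % 8 = 6
  · obtain ⟨ρ, hρ, hρF, hρi⟩ := rho_i h3 h4 k o hk hf h3f hN hP hP2
    exact DI.th (Mn k o f N) Sg (uN f N m T b) (sqr (-1)) (2 * B)
      (fun σ _ => hnorm σ) huni huF hu0 hi
      ⟨P, hP.1, hP.2, ρ, hρ, hρF, hρi _ hi⟩ (by positivity)
      (thn_of_kk k o hKK hnorm hSgK hSgex) g hg P hP.1 ((DI.two_mem_iff hP.1).1 hP2)
      d (DI.stab_of_le hP hdP) hdF (hdi _ hi) τ hτ
  · exact th_i (Mn k o f N) Sg (uN f N m T b) (sqr (-1)) (2 * B)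
      (fun σ _ => hnorm σ) huni huF hu0 hi (fix_i h5 h6 h3 k o hk hf h3f hN hi) (by positivity)
      (thn_of_kk k o hKK hnorm hSgK hSgex) g hg P hP.1 ((DI.two_mem_iff hP.1).1 hP2)
      d (DI.stab_of_le hP hdP) hdF τ hτ

end Pool.Agent.DR.H3
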